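import Mathlib
import Pool.Agent.X200.GqMain

/-!
An isomorphism-invariant graph property whose edge-query game is not determined.
-/

set_option autoImplicit false

namespace Pool.Agent.Results.MP_5af839_lc.Nondetermined

/-- an edge of the complete graph on the natural numbers: an unordered pair of distinct numbers -/
abbrev Edge : Type := {e : Sym2 ℕ // ¬ e.IsDiag}

/-- a finite position (history): the edges queried so far, each with its colour (`true` is green,
`false` is red), the latest first; every other edge is still white -/
abbrev Position : Type := List (Edge × Bool)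

/-- the position after `n` turns of the run in which the edge `e i` is queried at turn `i` and gets
the colour `c i` -/
def position (e : ℕ → Edge) (c : ℕ → Bool) : ℕ → Position
  | 0 => []
  | n + 1 => (e n, c n) :: position e c n

/-- the edge `w` is still white at the position `p` -/
def IsWhite (p : Position) (w : Edge) : Prop := ∀ b : Bool, (w, b) ∉ p

/-- the set of green edges at the end of the run -/
def green (e : ℕ → Edge) (c : ℕ → Bool) : Set Edge := {x | ∃ n, e n = x ∧ c n = true}

/-- the set of edges that are white at the end of the run -/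
def white (e : ℕ → Edge) : Set Edge := {x | ∀ n, e n ≠ x}

/-- the graphs `H` with `G_∞ ⊆ H ⊆ G_∞ ∪ W_∞` -/
def possible (e : ℕ → Edge) (c : ℕ → Bool) : Set (SimpleGraph ℕ) :=
  {H | ∀ x : Edge, (x ∈ green e c → x.1 ∈ H.edgeSet) ∧
    (x.1 ∈ H.edgeSet → x ∈ green e c ∨ x ∈ white e)}

/-- Seeker wins the run: some edge is white at the end, and the possible graphs are either all in
`S` or all outside `S` -/
def SeekerWins (S : Set (SimpleGraph ℕ)) (e : ℕ → Edge) (c : ℕ → Bool) : Prop :=
  (white e).Nonempty ∧ (possible e c ⊆ S ∨ possible e c ∩ S = ∅)

/-- Seeker has a winning strategy: a function `σ` from positions to edges white at them, such that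
Seeker wins every run in which he follows `σ` -/
def SeekerHasWinningStrategy (S : Set (SimpleGraph ℕ)) : Prop :=
  ∃ σ : Position → Edge, (∀ p, IsWhite p (σ p)) ∧ ∀ (e : ℕ → Edge) (c : ℕ → Bool),
    (∀ n, e n = σ (position e c n)) → SeekerWins S e c

/-- Hider has a winning strategy: a function `τ` giving the colour for each position and queried
edge, such that Hider wins every legal run in which he follows `τ` -/
def HiderHasWinningStrategy (S : Set (SimpleGraph ℕ)) : Prop :=
  ∃ τ : Position → Edge → Bool, ∀ (e : ℕ → Edge) (c : ℕ → Bool),
    (∀ n, IsWhite (position e c n) (e n)) → (∀ n, c n = τ (position e c n) (e n)) →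
      ¬ SeekerWins S e c

/-- graph properties: sets of graphs on the natural numbers closed under isomorphism -/
def IsGraphProperty (S : Set (SimpleGraph ℕ)) : Prop :=
  ∀ G H : SimpleGraph ℕ, Nonempty (G ≃g H) → G ∈ S → H ∈ S

/-- the game of `S` is determined -/
def Determined (S : Set (SimpleGraph ℕ)) : Prop :=
  SeekerHasWinningStrategy S ∨ HiderHasWinningStrategy S

/-- there is a graph property whose game is not determined -/
theorem result : ∃ S : Set (SimpleGraph ℕ), IsGraphProperty S ∧ ¬ Determined S := by
  obtain ⟨S, h1, h2, h3⟩ := Pool.Agent.X200.Gq.main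
  have hpos : ∀ (e : ℕ → Edge) (c : ℕ → Bool) (n : ℕ),
      position e c n = Pool.Agent.X200.Gq.position e c n := by
    intro e c n
    induction n with
    | zero => rfl
    | succ n ih => simp only [position, Pool.Agent.X200.Gq.position, ih]
  refine ⟨S, h1, ?_⟩
  rintro (⟨σ, hσ, h⟩ | ⟨τ, h⟩)
  · exact h2 ⟨σ, hσ, fun e c he => h e c fun n => by rw [he n, hpos]⟩
  · refine h3 ⟨τ, fun e c he hc => h e c (fun n => ?_) fun n => ?_⟩
    · rw [hpos]
      exact he n
    · rw [hpos]
      exact hc n

end Pool.Agent.Results.MP_5af839_lc.Nondetermined
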